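import Mathlib

/-!
# Number of distinct products under permutation of factors

We show that for every `n` and every `1 ≤ k ≤ n!` there is a (finite, nilpotent of class at most 2)
group `G` with pairwise distinct elements `g 0, ..., g (n-1)` whose products in all `n!` orders
take exactly `k` distinct values.

The group is a Heisenberg type group: the set `(ZMod (2k))^n × ZMod k` with multiplication
`(v, z) (w, t) = (v + w, z + t + β v w)`, where `β` is the bilinear map with
`β (e i) (e j) = i !` for `j < i` and `0` otherwise (indices starting at `0`).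
The product in the order given by a permutation `σ` is `(∑ e i, ∑ (σ p)!)`, the last sum running
over the inversions `p < q`, `σ q < σ p` of `σ`.  By the factorial number system the integers
`∑ (σ p)!` are exactly `0, 1, ..., n! - 1`, so modulo `k ≤ n!` all `k` residues occur.
-/

set_option autoImplicit false

open Finset

namespace Pool.Agent.Results.MP_71df81_al.AllProductCounts

/-- The set of all products of `g 0, ..., g (n-1)`, taken in every possible order. -/
def productSet {G : Type*} [Group G] {n : ℕ} (g : Fin n → G) : Set G :=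
  Set.range fun σ : Equiv.Perm (Fin n) => (List.ofFn fun i => g (σ i)).prod

/-- The underlying set of the Heisenberg type group. -/
@[ext] structure Heis (n k : ℕ) : Type where
  v : Fin n → ZMod (2 * k)
  z : ZMod k

namespace Heis

variable {n k : ℕ}

/-- Reduction `ZMod (2k) → ZMod k`. -/
def red (k : ℕ) : ZMod (2 * k) →+* ZMod k := ZMod.castHom (Dvd.intro_left 2 rfl) (ZMod k)

/-- The bilinear cocycle. -/
def beta (v w : Fin n → ZMod (2 * k)) : ZMod k :=
  ∑ i : Fin n, ∑ j : Fin n,
    if j < i then ((i : ℕ).factorial : ZMod k) * (red k (v i) * red k (w j)) else 0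

lemma beta_add_left (v v' w : Fin n → ZMod (2 * k)) :
    beta (v + v') w = beta v w + beta v' w := by
  unfold beta
  rw [← Finset.sum_add_distrib]
  refine Finset.sum_congr rfl fun i _ => ?_
  rw [← Finset.sum_add_distrib]
  refine Finset.sum_congr rfl fun j _ => ?_
  split_ifs
  · simp only [Pi.add_apply, map_add]; ring
  · simp

lemma beta_add_right (v w w' : Fin n → ZMod (2 * k)) :
    beta v (w + w') = beta v w + beta v w' := by
  unfold beta
  rw [← Finset.sum_add_distrib]
  refine Finset.sum_congr rfl fun i _ => ?_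
  rw [← Finset.sum_add_distrib]
  refine Finset.sum_congr rfl fun j _ => ?_
  split_ifs
  · simp only [Pi.add_apply, map_add]; ring
  · simp

lemma beta_zero_left (w : Fin n → ZMod (2 * k)) : beta (0 : Fin n → ZMod (2 * k)) w = 0 := by
  unfold beta
  refine Finset.sum_eq_zero fun i _ => Finset.sum_eq_zero fun j _ => ?_
  split_ifs <;> simp

lemma beta_zero_right (w : Fin n → ZMod (2 * k)) : beta w (0 : Fin n → ZMod (2 * k)) = 0 := by
  unfold beta
  refine Finset.sum_eq_zero fun i _ => Finset.sum_eq_zero fun j _ => ?_
  split_ifs <;> simp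

lemma beta_neg_left (v w : Fin n → ZMod (2 * k)) : beta (-v) w = -beta v w := by
  have h := beta_add_left v (-v) w
  rw [add_neg_cancel, beta_zero_left] at h
  exact (neg_eq_of_add_eq_zero_right h.symm).symm

lemma beta_sum_right {ι : Type*} (s : Finset ι) (v : Fin n → ZMod (2 * k))
    (f : ι → Fin n → ZMod (2 * k)) :
    beta v (∑ i ∈ s, f i) = ∑ i ∈ s, beta v (f i) := by
  classical
  induction s using Finset.induction_on with
  | empty => simp [beta_zero_right]
  | insert a s ha ih => rw [Finset.sum_insert ha, Finset.sum_insert ha, beta_add_right, ih]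

instance : Group (Heis n k) where
  mul a b := ⟨a.v + b.v, a.z + b.z + beta a.v b.v⟩
  one := ⟨0, 0⟩
  inv a := ⟨-a.v, -a.z + beta a.v a.v⟩
  mul_assoc a b c := by
    apply Heis.ext
    · exact add_assoc _ _ _
    · change a.z + b.z + beta a.v b.v + c.z + beta (a.v + b.v) c.v =
        a.z + (b.z + c.z + beta b.v c.v) + beta a.v (b.v + c.v)
      rw [beta_add_left, beta_add_right]; ring
  one_mul a := by
    apply Heis.ext
    · exact zero_add _
    · change 0 + a.z + beta 0 a.v = a.z
      rw [beta_zero_left]; ring
  mul_one a := by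
    apply Heis.ext
    · exact add_zero _
    · change a.z + 0 + beta a.v 0 = a.z
      rw [beta_zero_right]; ring
  inv_mul_cancel a := by
    apply Heis.ext
    · exact neg_add_cancel _
    · change -a.z + beta a.v a.v + a.z + beta (-a.v) a.v = 0
      rw [beta_neg_left]; ring

lemma mul_v (a b : Heis n k) : (a * b).v = a.v + b.v := rfl
lemma mul_z (a b : Heis n k) : (a * b).z = a.z + b.z + beta a.v b.v := rfl
lemma one_v : (1 : Heis n k).v = 0 := rfl
lemma one_z : (1 : Heis n k).z = 0 := rfl
lemma inv_v (a : Heis n k) : (a⁻¹).v = -a.v := rfl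

/-- The structure as a product of finite types. -/
def toProd : Heis n k ≃ (Fin n → ZMod (2 * k)) × ZMod k where
  toFun a := (a.v, a.z)
  invFun p := ⟨p.1, p.2⟩
  left_inv _ := rfl
  right_inv _ := rfl

/-- An element with trivial first coordinate is central. -/
lemma central_of_v_eq_zero (a : Heis n k) (ha : a.v = 0) (b : Heis n k) : a * b = b * a := by
  apply Heis.ext
  · rw [mul_v, mul_v, add_comm]
  · rw [mul_z, mul_z, ha, beta_zero_left, beta_zero_right]; ring

/-- The product of a sequence of elements with trivial second coordinate. -/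
lemma prod_ofFn (m : ℕ) (h : Fin m → Fin n → ZMod (2 * k)) :
    (List.ofFn fun p => (⟨h p, 0⟩ : Heis n k)).prod =
      ⟨∑ p, h p, ∑ p, ∑ q, if p < q then beta (h p) (h q) else 0⟩ := by
  induction m with
  | zero => simp only [List.ofFn_zero, List.prod_nil, Finset.univ_eq_empty, Finset.sum_empty]; rfl
  | succ m ih =>
    rw [List.ofFn_succ, List.prod_cons, ih fun p => h p.succ]
    apply Heis.ext
    · rw [mul_v, Fin.sum_univ_succ]
    · rw [mul_z, Fin.sum_univ_succ]
      simp only [Fin.sum_univ_succ, Fin.succ_lt_succ_iff, if_false, zero_add,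
        Fin.succ_pos, if_true, Fin.not_lt_zero]
      rw [beta_sum_right]; ring

end Heis

/-- The weight of a permutation: the sum of `(σ p)!` over the inversions `p < q`, `σ q < σ p`. -/
def weight {n : ℕ} (σ : Equiv.Perm (Fin n)) : ℕ :=
  ∑ p, ∑ q, if p < q ∧ σ q < σ p then (σ p : ℕ).factorial else 0

/-- Insert the largest value at position `pos`. -/
def ins {n : ℕ} (pos : Fin (n + 1)) (σ : Equiv.Perm (Fin n)) : Equiv.Perm (Fin (n + 1)) :=
  (finSuccEquiv' pos).trans ((Equiv.optionCongr σ).trans (finSuccEquiv' (Fin.last n)).symm)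

lemma ins_at {n : ℕ} (pos : Fin (n + 1)) (σ : Equiv.Perm (Fin n)) :
    ins pos σ pos = Fin.last n := by
  simp [ins]

lemma ins_succAbove {n : ℕ} (pos : Fin (n + 1)) (σ : Equiv.Perm (Fin n)) (i : Fin n) :
    ins pos σ (pos.succAbove i) = (σ i).castSucc := by
  simp [ins]

lemma card_above {n : ℕ} (pos : Fin (n + 1)) :
    (∑ i : Fin n, if pos < pos.succAbove i then 1 else 0) = n - (pos : ℕ) := by
  have h : ∀ i : Fin n, (pos < pos.succAbove i) ↔ (pos : ℕ) ≤ i := by
    intro i
    rw [Fin.lt_succAbove_iff_le_castSucc]
    exact Iff.rfl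
  simp only [h]
  rw [Fin.sum_univ_eq_sum_range (fun i => if (pos : ℕ) ≤ i then 1 else 0) n]
  rw [← Finset.sum_filter]
  rw [Finset.sum_const, smul_eq_mul, mul_one]
  have : Finset.filter (fun i => (pos : ℕ) ≤ i) (Finset.range n) = Finset.Ico (pos : ℕ) n := by
    ext x; simp [Finset.mem_Ico, and_comm]
  rw [this, Nat.card_Ico]

lemma weight_ins {n : ℕ} (pos : Fin (n + 1)) (σ : Equiv.Perm (Fin n)) :
    weight (ins pos σ) = (n - (pos : ℕ)) * n.factorial + weight σ := by
  unfold weight
  rw [Fin.sum_univ_succAbove _ pos]
  congr 1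
  · rw [Fin.sum_univ_succAbove _ pos]
    simp only [lt_irrefl, false_and, if_false, zero_add, ins_at, ins_succAbove, Fin.val_last,
      Fin.castSucc_lt_last, and_true]
    rw [← card_above pos, Finset.sum_mul]
    refine Finset.sum_congr rfl fun i _ => ?_
    split_ifs <;> simp
  · refine Finset.sum_congr rfl fun i _ => ?_
    rw [Fin.sum_univ_succAbove _ pos]
    have h1 : ¬ (Fin.last n < (σ i).castSucc) := not_lt.mpr (Fin.le_last _)
    simp only [ins_at, ins_succAbove, h1, and_false, if_false, zero_add,
      Fin.castSucc_lt_castSucc_iff, Fin.val_castSucc]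
    refine Finset.sum_congr rfl fun j _ => ?_
    have h2 : pos.succAbove i < pos.succAbove j ↔ i < j :=
      (Fin.strictMono_succAbove pos).lt_iff_lt
    simp only [h2]

/-- Factorial number system: every `m < n!` is the weight of a permutation. -/
lemma exists_weight (n : ℕ) : ∀ m < n.factorial, ∃ σ : Equiv.Perm (Fin n), weight σ = m := by
  induction n with
  | zero =>
    intro m hm
    refine ⟨1, ?_⟩
    rw [Nat.factorial_zero] at hm
    have : m = 0 := by omega
    subst this
    simp [weight]
  | succ n ih =>
    intro m hm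
    have hpos : 0 < n.factorial := n.factorial_pos
    obtain ⟨σ, hσ⟩ := ih (m % n.factorial) (Nat.mod_lt _ hpos)
    have hq : m / n.factorial < n + 1 := by
      rw [Nat.div_lt_iff_lt_mul hpos]
      rwa [Nat.factorial_succ] at hm
    refine ⟨ins ⟨n - m / n.factorial, Nat.lt_succ_of_le (Nat.sub_le _ _)⟩ σ, ?_⟩
    rw [weight_ins, hσ]
    have h3 : n - (n - m / n.factorial) = m / n.factorial :=
      Nat.sub_sub_self (Nat.lt_succ_iff.mp hq)
    change (n - (n - m / n.factorial)) * n.factorial + m % n.factorial = m
    rw [h3, mul_comm]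
    exact Nat.div_add_mod m _

/-- The generators. -/
def gen (n k : ℕ) (i : Fin n) : Heis n k := ⟨Pi.single i 1, 0⟩

lemma beta_single {n k : ℕ} (i j : Fin n) :
    Heis.beta (k := k) (Pi.single i 1) (Pi.single j 1) =
      if j < i then ((i : ℕ).factorial : ZMod k) else 0 := by
  unfold Heis.beta
  rw [Finset.sum_eq_single i]
  · rw [Finset.sum_eq_single j]
    · simp
    · intro b _ hb
      simp [Pi.single_eq_of_ne hb]
    · simp
  · intro b _ hb
    refine Finset.sum_eq_zero fun c _ => ?_
    simp [Pi.single_eq_of_ne hb]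
  · simp

lemma prod_gen (n k : ℕ) (σ : Equiv.Perm (Fin n)) :
    (List.ofFn fun i => gen n k (σ i)).prod =
      ⟨∑ i, Pi.single i 1, (weight σ : ZMod k)⟩ := by
  unfold gen
  rw [Heis.prod_ofFn n fun i => Pi.single (σ i) 1]
  apply Heis.ext
  · exact Equiv.sum_comp σ fun i => (Pi.single i 1 : Fin n → ZMod (2 * k))
  · simp only [beta_single, weight]
    push_cast
    refine Finset.sum_congr rfl fun p _ => Finset.sum_congr rfl fun q _ => ?_
    by_cases h1 : p < q <;> by_cases h2 : σ q < σ p <;> simp [h1, h2]

/-- **Main theorem.** For every `n` and every `1 ≤ k ≤ n!` there are a group `G` and pairwise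
distinct `g 0, ..., g (n-1)` in `G` such that the products of the `g i` in all possible orders form
a set with exactly `k` elements. Moreover `G` can be taken finite and nilpotent of class at most
two (all commutators are central). -/
theorem result (n k : ℕ) (hk : 1 ≤ k) (hkn : k ≤ n.factorial) :
    ∃ (G : Type) (_ : Group G) (g : Fin n → G),
      Finite G ∧ (∀ x y z : G, Commute (x * y * x⁻¹ * y⁻¹) z) ∧
      Function.Injective g ∧ (productSet g).ncard = k := by
  have : NeZero k := ⟨by omega⟩
  have : NeZero (2 * k) := ⟨by omega⟩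
  have : Fact (1 < 2 * k) := ⟨by omega⟩
  refine ⟨Heis n k, inferInstance, gen n k, Finite.of_equiv _ Heis.toProd.symm, ?_, ?_, ?_⟩
  · intro x y z
    refine Heis.central_of_v_eq_zero _ ?_ z
    simp only [Heis.mul_v, Heis.inv_v]
    abel
  · intro i j hij
    have h1 : (Pi.single i 1 : Fin n → ZMod (2 * k)) = Pi.single j 1 := congrArg Heis.v hij
    by_contra hne
    have h2 := congrFun h1 i
    rw [Pi.single_eq_same, Pi.single_eq_of_ne hne] at h2
    exact one_ne_zero h2
  · have hset : productSet (gen n k) =
        (fun c : ZMod k => (⟨∑ i, Pi.single i 1, c⟩ : Heis n k)) '' Set.univ := by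
      ext x
      simp only [productSet, Set.mem_range, Set.image_univ, prod_gen]
      constructor
      · rintro ⟨σ, rfl⟩
        exact ⟨_, rfl⟩
      · rintro ⟨c, rfl⟩
        obtain ⟨σ, hσ⟩ := exists_weight n c.val (lt_of_lt_of_le (ZMod.val_lt c) hkn)
        exact ⟨σ, by rw [hσ, ZMod.natCast_zmod_val]⟩
    rw [hset, Set.ncard_image_of_injective _ (fun a b hab => congrArg Heis.z hab),
      Set.ncard_univ, Nat.card_zmod]

end Pool.Agent.Results.MP_71df81_al.AllProductCounts
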